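import Pool.Agent.R473.ZJ.Clean

/-!
# Families of numbers which are not simultaneously approximable: digits with changes
-/

set_option autoImplicit false

namespace Pool.Agent.R473.ZJ

open Finset Polynomial Module Pool.Agent.W472.AC Pool.Agent.R473.EC Pool.Agent.TH629.ExpDig
  Pool.Agent.R473.JC

open Classical in
/-- the places among `1, …, L` at which one of the sequences `s i` is not the sequence of the digits
of `x i` -/
noncomputable def err {n : ℕ} (b : ℕ) (x : Fin n → ℝ) (s : Fin n → ℕ → ℤ) (L : ℕ) : Finset ℕ :=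
  (Icc 1 L).filter fun l => ∃ i, s i l ≠ digit b (x i) l

theorem changes {ι : Type} (W : Finset ι) (z : ι → ℝ) {D : ℕ} (v : Fin D → ℝ) (K : ℕ)
    (hz : Far W z v K) (hv : LMeas v) :
    ∃ A : ℝ, 1 ≤ A ∧ ∀ J : Finset ι, J ⊆ W → (W : Set ι).ncard < (J : Set ι).ncard + K →
      ∀ (b k L : ι → ℕ) (E : ℕ) (σ₀ M : ℝ), (∀ j ∈ J, 2 ≤ b j) →
      (∀ j ∈ J, ((k j : ℝ) + 1) * Real.log (b j) ≤ σ₀) →
      (∀ j ∈ J, M ≤ L j * Real.log (b j)) →
      ∀ s : ι → Fin (D + 1) → ℕ → ℤ, (∀ j ∈ J, ∀ i l, 0 ≤ s j i l ∧ s j i l < b j) →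
      ∑ j ∈ J, (err (b j) (Fin.cons (z j) v : Fin (D + 1) → ℝ) (s j) (L j)).card ≤ E →
      (∀ j ∈ J, LRel (s j) (L j) (k j)) → M ≤ A ^ (E + 1) * σ₀ := by
  classical
  obtain ⟨A₀, hA₀, hclean⟩ := clean W z v K hz hv
  refine ⟨A₀ + 1, by linarith, ?_⟩
  intro J hJW hJK b k L E σ₀ M hb hk hM s hs hE hrel
  obtain ⟨A, hA⟩ : ∃ A : ℝ, A = A₀ + 1 := ⟨_, rfl⟩
  rw [← hA]
  have hA1 : 1 ≤ A := by linarith
  have hJne : J.Nonempty := by
    rw [Finset.nonempty_iff_ne_empty]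
    intro h0
    rw [h0] at hJK
    simp only [Finset.coe_empty, Set.ncard_empty, zero_add] at hJK
    obtain ⟨κ, q0, hfar⟩ := hz
    have h1 := hfar q0 le_rfl
    have h2 : {j : ι | j ∈ W ∧ ∀ (r : ℤ) (p : Fin D → ℤ), (∀ i, |(p i : ℝ)| ≤ (q0 : ℝ) ^ 2) →
        1 / (q0 : ℝ) ^ κ ≤ |(q0 : ℝ) * z j - r - ∑ i, (p i : ℝ) * v i|} ⊆ (W : Set ι) :=
      fun j hj => hj.1
    have h3 := Set.ncard_le_ncard h2 W.finite_toSet
    omega
  obtain ⟨j0, hj0⟩ := hJne
  have hlog : ∀ j ∈ J, 0 < Real.log (b j) := fun j hj => by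
    have h0 : (2 : ℝ) ≤ b j := by exact_mod_cast hb j hj
    exact Real.log_pos (by linarith)
  have hσ₀ : 0 < σ₀ := by
    refine lt_of_lt_of_le ?_ (hk j0 hj0)
    exact mul_pos (by positivity) (hlog j0 hj0)
  by_contra hcon
  push Not at hcon
  obtain ⟨e, he⟩ : ∃ e : ι → Finset ℕ,
      e = fun j => err (b j) (Fin.cons (z j) v : Fin (D + 1) → ℝ) (s j) (L j) := ⟨_, rfl⟩
  have hej : ∀ j, err (b j) (Fin.cons (z j) v : Fin (D + 1) → ℝ) (s j) (L j) = e j := fun j => by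
    rw [he]
  simp only [hej] at hE
  obtain ⟨f, hf⟩ : ∃ f : ℕ → ι → Finset ℕ, ∀ i j, f i j =
      (e j).filter fun l : ℕ => (l : ℝ) * Real.log (b j) ≤ A ^ i * σ₀ := ⟨fun i j =>
      (e j).filter fun l : ℕ => (l : ℝ) * Real.log (b j) ≤ A ^ i * σ₀, fun _ _ => rfl⟩
  have hmono : ∀ i, A ^ i * σ₀ ≤ A ^ (i + 1) * σ₀ := fun i =>
    mul_le_mul_of_nonneg_right (pow_le_pow_right₀ hA1 (Nat.le_succ i)) hσ₀.le
  have hsub : ∀ i j, f i j ⊆ f (i + 1) j := by
    intro i j l hl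
    rw [hf, Finset.mem_filter] at hl ⊢
    exact ⟨hl.1, hl.2.trans (hmono i)⟩
  have hFE : ∑ j ∈ J, (f (E + 1) j).card ≤ E := by
    refine le_trans (Finset.sum_le_sum fun j _ => ?_) hE
    rw [hf]
    exact Finset.card_filter_le _ _
  obtain ⟨i, hiE, hFi⟩ : ∃ i ≤ E, ∑ j ∈ J, (f i j).card = ∑ j ∈ J, (f (i + 1) j).card := by
    by_contra hno
    push Not at hno
    have h1 : ∀ i ≤ E + 1, i ≤ ∑ j ∈ J, (f i j).card := by
      intro i
      induction i with
      | zero => intro _; exact Nat.zero_le _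
      | succ i ih =>
        intro hi
        have h2 := ih (by omega)
        have h3 := hno i (by omega)
        have h4 : ∑ j ∈ J, (f i j).card ≤ ∑ j ∈ J, (f (i + 1) j).card :=
          Finset.sum_le_sum fun j _ => Finset.card_le_card (hsub i j)
        omega
    have := h1 (E + 1) le_rfl
    omega
  have hfeq : ∀ j ∈ J, f i j = f (i + 1) j := by
    intro j hj
    have h1 := (Finset.sum_eq_sum_iff_of_le (fun j _ => Finset.card_le_card (hsub i j))).1 hFi j hj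
    exact Finset.eq_of_subset_of_card_le (hsub i j) h1.ge
  obtain ⟨σ, hσ⟩ : ∃ σ : ℝ, σ = A ^ i * σ₀ := ⟨_, rfl⟩
  obtain ⟨Y, hY⟩ : ∃ Y : ℝ, Y = A ^ (i + 1) * σ₀ := ⟨_, rfl⟩
  have hσ0 : 0 < σ := by rw [hσ]; positivity
  have hσ₀σ : σ₀ ≤ σ := by
    rw [hσ]
    exact le_mul_of_one_le_left hσ₀.le (one_le_pow₀ hA1)
  have hσY : σ ≤ Y := by rw [hσ, hY]; exact hmono i
  have hYM : Y ≤ M := by
    rw [hY]
    refine le_trans ?_ hcon.le
    exact mul_le_mul_of_nonneg_right (pow_le_pow_right₀ hA1 (by omega)) hσ₀.le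
  have hfl : ∀ j ∈ J, ∀ y : ℝ, 0 ≤ y → (⌊y / Real.log (b j)⌋₊ : ℝ) * Real.log (b j) ≤ y := by
    intro j hj y hy
    rw [← le_div_iff₀ (hlog j hj)]
    exact Nat.floor_le (div_nonneg hy (hlog j hj).le)
  have hfl' : ∀ j ∈ J, ∀ y : ℝ,
      y < (⌊y / Real.log (b j)⌋₊ : ℝ) * Real.log (b j) + Real.log (b j) := by
    intro j hj y
    have := Nat.lt_floor_add_one (y / Real.log (b j))
    rw [div_lt_iff₀ (hlog j hj)] at this
    linarith
  have hLj : ∀ j ∈ J, ⌊Y / Real.log (b j)⌋₊ ≤ L j := by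
    intro j hj
    have h1 := hfl j hj Y (by linarith)
    have h2 := hM j hj
    have h3 : (⌊Y / Real.log (b j)⌋₊ : ℝ) * Real.log (b j) ≤ L j * Real.log (b j) := by linarith
    exact_mod_cast le_of_mul_le_mul_right h3 (hlog j hj)
  have hfin := hclean J hJW hJK b k (fun j => ⌊Y / Real.log (b j)⌋₊)
    (fun j => ⌊σ / Real.log (b j)⌋₊) σ Y hb (fun j hj => (hk j hj).trans hσ₀σ)
    (fun j hj => hfl j hj σ hσ0.le)
    (fun j hj => Nat.floor_le_floor (div_le_div_of_nonneg_right hσY (hlog j hj).le))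
    (fun j hj => hfl j hj Y (by linarith)) (fun j hj => (hfl' j hj Y).le) s hs
    (fun j hj i' l hl hl' => by
      by_contra hne
      have h1 : l ∈ f (i + 1) j := by
        rw [hf, Finset.mem_filter]
        refine ⟨?_, ?_⟩
        · rw [he]
          unfold err
          simp only [Finset.mem_filter, Finset.mem_Icc]
          exact ⟨⟨by omega, hl'.trans (hLj j hj)⟩, i', hne⟩
        · rw [← hY]
          have h2 := hfl j hj Y (by linarith)
          have h3 : (l : ℝ) ≤ (⌊Y / Real.log (b j)⌋₊ : ℝ) := by exact_mod_cast hl'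
          have h4 := mul_le_mul_of_nonneg_right h3 (hlog j hj).le
          linarith
      rw [← hfeq j hj, hf, Finset.mem_filter] at h1
      have h2 := h1.2
      rw [← hσ] at h2
      have h3 := hfl' j hj σ
      have h4 : ((⌊σ / Real.log (b j)⌋₊ : ℝ) + 1) ≤ l := by exact_mod_cast hl
      have h5 := mul_le_mul_of_nonneg_right h4 (hlog j hj).le
      linarith)
    (fun j hj => (hrel j hj).trunc _ (hLj j hj))
  rw [hY, hσ, pow_succ] at hfin
  have h1 : 0 < A ^ i * σ₀ := by positivity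
  have h2 : A * (A ^ i * σ₀) ≤ A₀ * (A ^ i * σ₀) := by linarith
  have h3 := le_of_mul_le_mul_right h2 h1
  linarith

end Pool.Agent.R473.ZJ
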