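import Pool.Agent.R473.ZJ.Est

/-!
# Families of numbers which are not simultaneously approximable: digits without changes
-/

set_option autoImplicit false

namespace Pool.Agent.R473.ZJ

open Finset Polynomial Module Pool.Agent.W472.AC Pool.Agent.R473.EC Pool.Agent.TH629.ExpDig
  Pool.Agent.R473.JC

/-- for all large `q` at least `K` of the `q z j`, `j` in `W`, have a distance at least `q^(-κ)`
from the combinations `r + ∑ p_i v_i`, `|p_i| ≤ q^2` -/
def Far {ι : Type} (W : Finset ι) (z : ι → ℝ) {D : ℕ} (v : Fin D → ℝ) (K : ℕ) : Prop :=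
  ∃ κ q0 : ℕ, ∀ q : ℕ, q0 ≤ q → K ≤ Set.ncard {j : ι | j ∈ W ∧ ∀ (r : ℤ) (p : Fin D → ℤ),
    (∀ i, |(p i : ℝ)| ≤ (q : ℝ) ^ 2) →
      1 / (q : ℝ) ^ κ ≤ |(q : ℝ) * z j - r - ∑ i, (p i : ℝ) * v i|}

/-- a polynomial measure of linear independence of `1, v_1, …, v_D` -/
def LMeas {D : ℕ} (v : Fin D → ℝ) : Prop :=
  ∃ w c : ℝ, 0 ≤ w ∧ 0 < c ∧ ∀ a : Fin (D + 1) → ℤ, a ≠ 0 → ∀ H : ℝ, 1 ≤ H →
    (∀ i, |(a i : ℝ)| ≤ H) → c ≤ H ^ w * |(a 0 : ℝ) + ∑ i : Fin D, (a i.succ : ℝ) * v i|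

theorem clean {ι : Type} (W : Finset ι) (z : ι → ℝ) {D : ℕ} (v : Fin D → ℝ) (K : ℕ)
    (hz : Far W z v K) (hv : LMeas v) :
    ∃ A : ℝ, 1 ≤ A ∧ ∀ J : Finset ι, J ⊆ W → (W : Set ι).ncard < (J : Set ι).ncard + K →
      ∀ (b k L t : ι → ℕ) (σ X : ℝ), (∀ j ∈ J, 2 ≤ b j) →
      (∀ j ∈ J, ((k j : ℝ) + 1) * Real.log (b j) ≤ σ) → (∀ j ∈ J, t j * Real.log (b j) ≤ σ) →
      (∀ j ∈ J, t j ≤ L j) → (∀ j ∈ J, L j * Real.log (b j) ≤ X) →
      (∀ j ∈ J, X ≤ L j * Real.log (b j) + Real.log (b j)) →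
      ∀ s : ι → Fin (D + 1) → ℕ → ℤ, (∀ j ∈ J, ∀ i l, 0 ≤ s j i l ∧ s j i l < b j) →
      (∀ j ∈ J, ∀ i l, t j < l → l ≤ L j →
        s j i l = digit (b j) ((Fin.cons (z j) v : Fin (D + 1) → ℝ) i) l) →
      (∀ j ∈ J, LRel (s j) (L j) (k j)) → X ≤ A * σ := by
  classical
  have hform : ∀ j : ι, _ := fun j => form_of_rel (Fin.cons (z j) v : Fin (D + 1) → ℝ)
  choose Aj hAj hform using hform
  obtain ⟨κ, q0, hfar⟩ := hz
  obtain ⟨w, c₀, hw, hc₀, hmeas⟩ := hv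
  obtain ⟨A₁, hA₁⟩ : ∃ A₁ : ℝ, A₁ = 1 + ∑ j ∈ W, Aj j := ⟨_, rfl⟩
  have hAj0 : ∀ j ∈ W, 0 ≤ Aj j := fun j _ => by linarith [hAj j]
  have hA₁1 : 1 ≤ A₁ := by
    rw [hA₁]
    have := Finset.sum_nonneg hAj0
    linarith
  have hAj1 : ∀ j ∈ W, Aj j ≤ A₁ := fun j hj => by
    rw [hA₁]
    have := Finset.single_le_sum hAj0 hj
    linarith
  obtain ⟨nW, hnW⟩ : ∃ nW : ℝ, nW = (W.card : ℝ) := ⟨_, rfl⟩
  have hnW0 : 0 ≤ nW := by rw [hnW]; exact Nat.cast_nonneg _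
  have hκ0 : (0 : ℝ) ≤ κ := Nat.cast_nonneg κ
  obtain ⟨lq0, hlq0⟩ : ∃ x : ℝ, x = Real.log ((q0 : ℝ) + 1) := ⟨_, rfl⟩
  have hlq00 : 0 ≤ lq0 := by
    rw [hlq0]; exact Real.log_nonneg (by linarith [(Nat.cast_nonneg q0 : (0 : ℝ) ≤ q0)])
  obtain ⟨c₁, hc₁⟩ : ∃ c₁ : ℝ, c₁ = (w + 1) + (κ + 1) * (nW + 1) + 1 := ⟨_, rfl⟩
  have hc₁1 : 1 ≤ c₁ := by
    rw [hc₁]
    have : 0 ≤ (κ + 1 : ℝ) * (nW + 1) := by positivity
    linarith
  obtain ⟨c₂, hc₂⟩ : ∃ c₂ : ℝ, c₂ = |Real.log c₀| + (κ + 1) * (lq0 + 1) := ⟨_, rfl⟩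
  have hc₂0 : 0 ≤ c₂ := by rw [hc₂]; positivity
  obtain ⟨N', hN'⟩ : ∃ N' : ℝ, N' = 4 * (c₁ * A₁) := ⟨_, rfl⟩
  have hcA : 1 ≤ c₁ * A₁ := by nlinarith
  have hN'1 : 1 ≤ N' := by rw [hN']; linarith
  have hlN' : 0 ≤ Real.log N' := Real.log_nonneg hN'1
  refine ⟨4 * (c₁ * A₁) + 3 + 4 * (c₁ * A₁ * Real.log N') + 4 * c₂, ?_, ?_⟩
  · have : 0 ≤ c₁ * A₁ * Real.log N' := by positivity
    linarith
  intro J hJW hJK b k L t σ X hb hk ht htL hLX hXL s hs hst hrel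
  -- the counting
  have hmeet : ∀ q : ℕ, q0 ≤ q → ∃ j ∈ J, ∀ (r : ℤ) (p : Fin D → ℤ),
      (∀ i, |(p i : ℝ)| ≤ (q : ℝ) ^ 2) →
      1 / (q : ℝ) ^ κ ≤ |(q : ℝ) * z j - r - ∑ i, (p i : ℝ) * v i| := by
    intro q hq
    by_contra hcon
    push Not at hcon
    have h1 := hfar q hq
    have h2 : {j : ι | j ∈ W ∧ ∀ (r : ℤ) (p : Fin D → ℤ), (∀ i, |(p i : ℝ)| ≤ (q : ℝ) ^ 2) →
        1 / (q : ℝ) ^ κ ≤ |(q : ℝ) * z j - r - ∑ i, (p i : ℝ) * v i|} ⊆ (W : Set ι) \ J := by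
      rintro j ⟨hjW, hj⟩
      refine ⟨hjW, fun hjJ => ?_⟩
      obtain ⟨r, p, hp, hlt⟩ := hcon j hjJ
      exact absurd (hj r p hp) (not_le.2 hlt)
    have h3 := Set.ncard_le_ncard h2 (W.finite_toSet.subset Set.sdiff_subset)
    have h4 := Set.ncard_sdiff_add_ncard_of_subset (Finset.coe_subset.2 hJW) W.finite_toSet
    omega
  obtain ⟨j0, hj0, -⟩ := hmeet q0 le_rfl
  have hlog2 : ∀ j ∈ J, 1 / 2 < Real.log (b j) := fun j hj => by
    have h0 : (2 : ℝ) ≤ b j := by exact_mod_cast hb j hj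
    have h1 := Real.log_le_log (by norm_num) h0
    have h2 := Real.log_two_gt_d9
    linarith
  have hX0 : 0 ≤ X := by
    have h1 := hLX j0 hj0
    have h2 := hlog2 j0 hj0
    have : 0 ≤ (L j0 : ℝ) * Real.log (b j0) := mul_nonneg (Nat.cast_nonneg _) (by linarith)
    linarith
  have hbσ : ∀ j ∈ J, Real.log (b j) ≤ σ := fun j hj => by
    have h1 := hk j hj
    have h2 := hlog2 j hj
    have : 0 ≤ (k j : ℝ) * Real.log (b j) := mul_nonneg (Nat.cast_nonneg _) (by linarith)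
    linarith
  have hσ : 1 / 2 < σ := (hlog2 j0 hj0).trans_le (hbσ j0 hj0)
  obtain ⟨ℓ, hℓ⟩ : ∃ ℓ : ℝ, ℓ = Real.log (2 * X + 1) := ⟨_, rfl⟩
  have hℓ0 : 0 ≤ ℓ := by rw [hℓ]; exact Real.log_nonneg (by linarith)
  obtain ⟨lN, hlN⟩ : ∃ lN : ℝ, lN = A₁ * (2 * σ + ℓ) := ⟨_, rfl⟩
  have hlN0 : 0 ≤ lN := by rw [hlN]; positivity
  -- the forms
  have hΛ : ∀ j ∈ J, Aj j * (((k j : ℝ) + 1 + t j) * Real.log (b j) +
      Real.log ((L j : ℝ) + 1)) ≤ lN := by
    intro j hj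
    have h1 : (L j : ℝ) ≤ 2 * X := by
      have h2 := hLX j hj
      have h3 := hlog2 j hj
      have h4 : (0 : ℝ) ≤ L j := Nat.cast_nonneg _
      nlinarith
    have h2 : Real.log ((L j : ℝ) + 1) ≤ ℓ := by
      rw [hℓ]
      exact Real.log_le_log (by positivity) (by linarith)
    have h3 : ((k j : ℝ) + 1 + t j) * Real.log (b j) ≤ 2 * σ := by
      have := hk j hj
      have := ht j hj
      linarith
    rw [hlN]
    refine mul_le_mul (hAj1 j (hJW hj)) (by linarith) ?_ (by linarith)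
    have h5 : 0 ≤ Real.log ((L j : ℝ) + 1) :=
      Real.log_nonneg (by linarith [(Nat.cast_nonneg (L j) : (0 : ℝ) ≤ L j)])
    have h6 := hlog2 j hj
    have h7 : 0 ≤ ((k j : ℝ) + 1 + t j) * Real.log (b j) := mul_nonneg (by positivity) (by linarith)
    linarith
  have hforms : ∀ j ∈ J, ∃ c : Fin (D + 1 + 1) → ℤ, c ≠ 0 ∧
      (∀ i, |(c i : ℝ)| ≤ Real.exp lN) ∧
      |(c 0 : ℝ) + ((c (Fin.succ 0) : ℝ) * z j +
        ∑ i : Fin D, (c i.succ.succ : ℝ) * v i)| ≤ Real.exp (lN + σ - X) := by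
    intro j hj
    obtain ⟨c, hc0, hcc, hcv⟩ := hform j (b j) (hb j hj) (L j) (k j) (t j) (htL j hj) (s j)
      (hs j hj) (hst j hj) (hrel j hj)
    refine ⟨c, hc0, fun i => (hcc i).trans (Real.exp_le_exp.2 (hΛ j hj)), ?_⟩
    rw [Fin.sum_univ_succ] at hcv
    simp only [Fin.cons_zero, Fin.cons_succ] at hcv
    refine hcv.trans (Real.exp_le_exp.2 ?_)
    have h1 := hΛ j hj
    have h2 := hXL j hj
    have h3 := hbσ j hj
    linarith
  choose! c hcne hcle hcv using hforms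
  have hN1 : 1 ≤ Real.exp lN := Real.one_le_exp hlN0
  have hmain : X ≤ c₁ * lN + σ + c₂ := by
    by_cases hcase : ∃ j ∈ J, c j (Fin.succ 0) = 0
    · obtain ⟨j, hj, hcj⟩ := hcase
      have hane : (Fin.cons (c j 0) (fun i : Fin D => c j i.succ.succ) : Fin (D + 1) → ℤ) ≠ 0 := by
        intro h0
        apply hcne j hj
        ext i
        refine Fin.cases ?_ (fun i => ?_) i
        · have := congrFun h0 0
          simpa using this
        · refine Fin.cases ?_ (fun i => ?_) i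
          · exact hcj
          · have := congrFun h0 i.succ
            simpa using this
      have h1 := hmeas _ hane (Real.exp lN) hN1 (fun i => by
        refine Fin.cases ?_ (fun i => ?_) i
        · simpa using hcle j hj 0
        · simpa using hcle j hj i.succ.succ)
      simp only [Fin.cons_zero, Fin.cons_succ] at h1
      have h2 := hcv j hj
      rw [hcj] at h2
      simp only [Int.cast_zero, zero_mul, zero_add] at h2
      have h3 : c₀ ≤ Real.exp lN ^ w * Real.exp (lN + σ - X) :=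
        h1.trans (mul_le_mul_of_nonneg_left h2 (by positivity))
      rw [← Real.exp_mul, ← Real.exp_add] at h3
      have h4 := Real.log_le_log hc₀ h3
      rw [Real.log_exp] at h4
      have h5 := neg_abs_le (Real.log c₀)
      have h6 : 0 ≤ (κ + 1 : ℝ) * (lq0 + 1) := by positivity
      have h7 : 0 ≤ ((κ + 1 : ℝ) * (nW + 1) + 1) * lN := by positivity
      rw [hc₁, hc₂]
      linarith
    · push Not at hcase
      obtain ⟨n0, hn0⟩ : ∃ n0 : ℕ, n0 = ⌈Real.exp lN⌉₊ := ⟨_, rfl⟩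
      have hn0N : Real.exp lN ≤ n0 := by rw [hn0]; exact Nat.le_ceil _
      have hn0N' : (n0 : ℝ) ≤ Real.exp (1 + lN) := by
        have h1 : (n0 : ℝ) < Real.exp lN + 1 := by rw [hn0]; exact Nat.ceil_lt_add_one (by positivity)
        have h2 := Real.add_one_le_exp (1 : ℝ)
        rw [Real.exp_add]
        nlinarith
      have hn0pos : 1 ≤ n0 := by
        have : (0 : ℝ) < n0 := lt_of_lt_of_le (by positivity) hn0N
        exact_mod_cast this
      obtain ⟨P, hP⟩ : ∃ P : ℕ, P = ∏ j ∈ J, (c j (Fin.succ 0)).natAbs := ⟨_, rfl⟩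
      have hPpos : 1 ≤ P := by
        rw [hP]
        exact Nat.one_le_iff_ne_zero.2 (Finset.prod_ne_zero_iff.2 fun j hj =>
          Int.natAbs_ne_zero.2 (hcase j hj))
      have hPN : (P : ℝ) ≤ Real.exp (nW * lN) := by
        rw [hP]
        push_cast
        calc ∏ j ∈ J, ((c j (Fin.succ 0)).natAbs : ℝ) ≤ ∏ _j ∈ J, Real.exp lN := by
              refine Finset.prod_le_prod (fun j _ => Nat.cast_nonneg _) fun j hj => ?_
              rw [Nat.cast_natAbs]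
              push_cast
              exact hcle j hj _
          _ = Real.exp lN ^ J.card := by rw [Finset.prod_const]
          _ ≤ Real.exp lN ^ W.card := pow_le_pow_right₀ hN1 (Finset.card_le_card hJW)
          _ = _ := by rw [← Real.exp_nat_mul, hnW]
      obtain ⟨q, hq⟩ : ∃ q : ℕ, q = (q0 + 1) * n0 * P := ⟨_, rfl⟩
      have hq1 : q0 + 1 ≤ q := by
        rw [hq]
        calc q0 + 1 = (q0 + 1) * 1 * 1 := by ring
          _ ≤ (q0 + 1) * n0 * P := by gcongr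
      have hqn0 : n0 ≤ q := by
        rw [hq]
        calc n0 = 1 * n0 * 1 := by ring
          _ ≤ (q0 + 1) * n0 * P := by gcongr; omega
      obtain ⟨j, hj, hgood⟩ := hmeet q (by omega)
      obtain ⟨Pj, hPj⟩ : ∃ Pj : ℕ, Pj = ∏ l ∈ J.erase j, (c l (Fin.succ 0)).natAbs := ⟨_, rfl⟩
      have hPPj : P = (c j (Fin.succ 0)).natAbs * Pj := by
        rw [hP, hPj]
        exact (Finset.mul_prod_erase J (fun l => (c l (Fin.succ 0)).natAbs) hj).symm
      obtain ⟨m, hm⟩ : ∃ m : ℕ, m = (q0 + 1) * n0 * Pj := ⟨_, rfl⟩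
      have hqm : q = (c j (Fin.succ 0)).natAbs * m := by rw [hq, hm, hPPj]; ring
      have hmq : m ≤ q := by
        rw [hqm]
        exact Nat.le_mul_of_pos_left _ (Nat.pos_of_ne_zero (Int.natAbs_ne_zero.2 (hcase j hj)))
      obtain ⟨ε, hε, hεc⟩ : ∃ ε : ℤ, |(ε : ℝ)| = 1 ∧
          ε * c j (Fin.succ 0) = ((c j (Fin.succ 0)).natAbs : ℤ) := by
        rcases Int.natAbs_eq (c j (Fin.succ 0)) with h | h
        · exact ⟨1, by norm_num, by rw [one_mul]; exact h⟩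
        · exact ⟨-1, by norm_num, by linarith⟩
      have hεcR : (ε : ℝ) * (c j (Fin.succ 0) : ℝ) = ((c j (Fin.succ 0)).natAbs : ℝ) := by
        have h := congrArg (fun z : ℤ => (z : ℝ)) hεc
        simp only [Int.cast_mul, Int.cast_natCast] at h
        exact h
      have hmN : ∀ i, |((m : ℝ) * (ε * (c j i : ℝ)))| ≤ (q : ℝ) ^ 2 := by
        intro i
        rw [abs_mul, abs_mul, hε, one_mul, abs_of_nonneg (Nat.cast_nonneg m), sq]
        have h1 : (m : ℝ) ≤ q := by exact_mod_cast hmq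
        have h2 : |(c j i : ℝ)| ≤ q := (hcle j hj i).trans (hn0N.trans (by exact_mod_cast hqn0))
        exact mul_le_mul h1 h2 (abs_nonneg _) (Nat.cast_nonneg _)
      have h1 := hgood (-((m : ℤ) * (ε * c j 0))) (fun i => -((m : ℤ) * (ε * c j i.succ.succ)))
        (fun i => by
          push_cast
          rw [abs_neg]
          exact hmN _)
      have e : (q : ℝ) * z j - ((-((m : ℤ) * (ε * c j 0)) : ℤ) : ℝ) -
          ∑ i : Fin D, ((-((m : ℤ) * (ε * c j i.succ.succ)) : ℤ) : ℝ) * v i =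
          (m : ℝ) * ε * ((c j 0 : ℝ) + ((c j (Fin.succ 0) : ℝ) * z j +
            ∑ i : Fin D, (c j i.succ.succ : ℝ) * v i)) := by
        have hqR : (q : ℝ) = (m : ℝ) * (ε * (c j (Fin.succ 0) : ℝ)) := by
          rw [hεcR, hqm]; push_cast; ring
        have e1 : ∑ i : Fin D, ((-((m : ℤ) * (ε * c j i.succ.succ)) : ℤ) : ℝ) * v i =
            -((m : ℝ) * ε * ∑ i : Fin D, (c j i.succ.succ : ℝ) * v i) := by
          rw [Finset.mul_sum, ← Finset.sum_neg_distrib]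
          refine Finset.sum_congr rfl fun i _ => ?_
          push_cast
          ring
        rw [e1, hqR]
        push_cast
        ring
      rw [e, abs_mul, abs_mul, hε, mul_one, abs_of_nonneg (Nat.cast_nonneg m)] at h1
      have hq0' : (0 : ℝ) < q := by
        have : 0 < q := by omega
        exact_mod_cast this
      have h2 : 1 / (q : ℝ) ^ κ ≤ q * Real.exp (lN + σ - X) :=
        h1.trans (mul_le_mul (by exact_mod_cast hmq) (hcv j hj) (abs_nonneg _) hq0'.le)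
      have h3 := Real.log_le_log (by positivity) h2
      rw [Real.log_div one_ne_zero (by positivity), Real.log_one, Real.log_pow,
        Real.log_mul hq0'.ne' (Real.exp_pos _).ne', Real.log_exp] at h3
      have hlq : Real.log q ≤ lq0 + 1 + (nW + 1) * lN := by
        have h4 : (q : ℝ) ≤ Real.exp (lq0 + (1 + lN) + nW * lN) := by
          rw [hq]
          push_cast
          rw [Real.exp_add, Real.exp_add]
          have h5 : ((q0 : ℝ) + 1) = Real.exp lq0 := by rw [hlq0, Real.exp_log (by positivity)]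
          rw [h5]
          gcongr
        have h5 := Real.log_le_log hq0' h4
        rw [Real.log_exp] at h5
        linarith
      have h4 : (κ + 1 : ℝ) * Real.log q ≤ (κ + 1) * (lq0 + 1 + (nW + 1) * lN) :=
        mul_le_mul_of_nonneg_left hlq (by positivity)
      have h5 : 0 ≤ w * lN := mul_nonneg hw hlN0
      have h6 := abs_nonneg (Real.log c₀)
      rw [hc₁, hc₂]
      linarith
  -- the logarithm of the length
  have f1 : ℓ ≤ (2 * X + 1) / N' + Real.log N' := by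
    have h3 := Real.log_le_sub_one_of_pos (show 0 < (2 * X + 1) / N' by positivity)
    rw [Real.log_div (by positivity) (by positivity)] at h3
    rw [hℓ]
    linarith
  have f2 : c₁ * A₁ * ℓ ≤ (2 * X + 1) / 4 + c₁ * A₁ * Real.log N' := by
    calc c₁ * A₁ * ℓ ≤ c₁ * A₁ * ((2 * X + 1) / N' + Real.log N') :=
          mul_le_mul_of_nonneg_left f1 (by linarith)
      _ = _ := by
          rw [hN']
          field_simp
  have f3 : c₁ * lN = 2 * (c₁ * A₁) * σ + c₁ * A₁ * ℓ := by rw [hlN]; ring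
  have f4 : 2 * (c₁ * A₁ * Real.log N') ≤ 4 * (c₁ * A₁ * Real.log N') * σ := by
    have : 0 ≤ c₁ * A₁ * Real.log N' := by positivity
    nlinarith
  have f5 : 2 * c₂ ≤ 4 * c₂ * σ := by nlinarith
  calc X ≤ 4 * (c₁ * A₁) * σ + 1 / 2 + 2 * (c₁ * A₁ * Real.log N') + 2 * σ + 2 * c₂ := by linarith
    _ ≤ 4 * (c₁ * A₁) * σ + 3 * σ + 4 * (c₁ * A₁ * Real.log N') * σ + 4 * c₂ * σ := by linarith
    _ = _ := by ring

end Pool.Agent.R473.ZJ
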