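import Pool.Agent.R473.ZJ.Form

/-!
# Size of the integer linear form given by a linear relation for the digits of several numbers
-/

set_option autoImplicit false

namespace Pool.Agent.R473.ZJ

open Finset Polynomial Module Pool.Agent.W472.AC Pool.Agent.R473.EC Pool.Agent.TH629.ExpDig
  Pool.Agent.R473.JC

/-- **The integer linear form.** -/
theorem form_of_rel {n : ℕ} (x : Fin n → ℝ) : ∃ A : ℝ, 1 ≤ A ∧ ∀ b : ℕ, 2 ≤ b → ∀ L k t : ℕ,
    t ≤ L → ∀ s : Fin n → ℕ → ℤ, (∀ i l, 0 ≤ s i l ∧ s i l < b) →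
    (∀ i l, t < l → l ≤ L → s i l = digit b (x i) l) → LRel s L k →
    ∃ c : Fin (n + 1) → ℤ, c ≠ 0 ∧
      (∀ j, |(c j : ℝ)| ≤ Real.exp (A * ((k + 1 + t) * Real.log b + Real.log (L + 1)))) ∧
      |(c 0 : ℝ) + ∑ i : Fin n, (c i.succ : ℝ) * x i| ≤
        Real.exp (A * ((k + 1 + t) * Real.log b + Real.log (L + 1)) - L * Real.log b) := by
  have hn0 : (0 : ℝ) ≤ n := Nat.cast_nonneg n
  have hSX : 0 ≤ ∑ i, |x i| := Finset.sum_nonneg fun i _ => abs_nonneg _
  obtain ⟨Q, hQ⟩ : ∃ Q : ℝ, Q = 1 + n * (∑ i, |x i| + 2) := ⟨_, rfl⟩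
  have hQ1 : 1 ≤ Q := by
    rw [hQ]
    have : 0 ≤ (n : ℝ) * (∑ i, |x i| + 2) := by positivity
    linarith
  obtain ⟨lr, hlr⟩ : ∃ x : ℝ, x = Real.log ((n : ℝ) + 1) := ⟨_, rfl⟩
  obtain ⟨lu, hlu⟩ : ∃ x : ℝ, x = Real.log Q := ⟨_, rfl⟩
  have hlr0 : 0 ≤ lr := by rw [hlr]; exact Real.log_nonneg (by linarith)
  have hlu0 : 0 ≤ lu := by rw [hlu]; exact Real.log_nonneg hQ1
  obtain ⟨κ, hκ⟩ : ∃ κ : ℝ, κ = 2 * ((n : ℝ) + 1) := ⟨_, rfl⟩
  have hκ0 : 0 ≤ κ := by rw [hκ]; positivity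
  obtain ⟨c₀, hc₀⟩ : ∃ x : ℝ, x = 2 * (lr + 2 + κ * lr + lu) := ⟨_, rfl⟩
  have hc₀0 : 0 ≤ c₀ := by rw [hc₀]; positivity
  obtain ⟨A, hA⟩ : ∃ A : ℝ, A = c₀ + (κ + 1) + (κ + 1) + 2 + 1 := ⟨_, rfl⟩
  refine ⟨A, by rw [hA]; linarith, ?_⟩
  intro b hb L k t htL s hs hst hrel
  have hbR : (2 : ℝ) ≤ b := by exact_mod_cast hb
  have hb0 : (0 : ℝ) < b := by linarith
  obtain ⟨lb, hlbd⟩ : ∃ x : ℝ, x = Real.log b := ⟨_, rfl⟩
  obtain ⟨lL, hlLd⟩ : ∃ x : ℝ, x = Real.log ((L : ℝ) + 1) := ⟨_, rfl⟩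
  rw [← hlbd, ← hlLd]
  have hlb : 1 / 2 < lb := by
    rw [hlbd]
    have h1 := Real.log_le_log (by norm_num) hbR
    have h2 := Real.log_two_gt_d9
    linarith
  have hlL : 0 ≤ lL := by
    rw [hlLd]
    exact Real.log_nonneg (by linarith [(Nat.cast_nonneg L : (0 : ℝ) ≤ L)])
  have hbe : (b : ℝ) = Real.exp lb := by rw [hlbd, Real.exp_log hb0]
  have hLe : (L : ℝ) + 1 = Real.exp lL := by rw [hlLd, Real.exp_log (by positivity)]
  have hre : (n : ℝ) + 1 = Real.exp lr := by rw [hlr, Real.exp_log (by positivity)]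
  have hue : Q = Real.exp lu := by rw [hlu, Real.exp_log (by linarith)]
  have h2e : (2 : ℝ) ≤ Real.exp 1 := by
    have := Real.add_one_le_exp (1 : ℝ)
    linarith
  have hk0 : (0 : ℝ) ≤ k := Nat.cast_nonneg k
  have ht0 : (0 : ℝ) ≤ t := Nat.cast_nonneg t
  obtain ⟨kb, hkb⟩ : ∃ x : ℝ, x = k * lb := ⟨_, rfl⟩
  obtain ⟨tb, htb⟩ : ∃ x : ℝ, x = t * lb := ⟨_, rfl⟩
  have hkb0 : 0 ≤ kb := by rw [hkb]; positivity
  have htb0 : 0 ≤ tb := by rw [htb]; positivity
  obtain ⟨Λ, hΛ⟩ : ∃ x : ℝ, x = (k + 1 + t) * lb + lL := ⟨_, rfl⟩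
  have hΛ' : Λ = kb + lb + tb + lL := by rw [hΛ, hkb, htb]; ring
  rw [← hΛ]
  have hΛ0 : 0 ≤ Λ := by rw [hΛ']; linarith
  have m1 : c₀ * lb ≤ c₀ * Λ := mul_le_mul_of_nonneg_left (by rw [hΛ']; linarith) hc₀0
  have m2 : (κ + 1) * lb ≤ (κ + 1) * Λ :=
    mul_le_mul_of_nonneg_left (by rw [hΛ']; linarith) (by positivity)
  have m3 : (κ + 1) * lL ≤ (κ + 1) * Λ :=
    mul_le_mul_of_nonneg_left (by rw [hΛ']; linarith) (by positivity)
  have m4 : 2 * kb ≤ 2 * Λ := mul_le_mul_of_nonneg_left (by rw [hΛ']; linarith) (by norm_num)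
  have m5 : tb ≤ Λ := by rw [hΛ']; linarith
  have m0 : lr + 2 + κ * lr + lu ≤ c₀ * lb := by
    rw [hc₀]
    have : 0 ≤ lr + 2 + κ * lr + lu := by positivity
    nlinarith
  have hAΛ : A * Λ = c₀ * Λ + (κ + 1) * Λ + (κ + 1) * Λ + 2 * Λ + Λ := by
    rw [hA]; ring
  by_cases hKL : k + k + 1 ≤ L
  · obtain ⟨H, hH⟩ : ∃ H : ℕ, H = ((n + 1) * (k + k + 1) * b) ^ (2 * (n + 1)) := ⟨_, rfl⟩
    obtain ⟨c, hc0, hcc, hcv⟩ := form_raw x b hb L k t htL s hs hst hrel H hH
    rw [← hQ] at hcc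
    have hk1 : ((k : ℝ) + k + 1) ≤ Real.exp lL := by
      rw [← hLe]
      have : ((k + k + 1 : ℕ) : ℝ) ≤ L := by exact_mod_cast hKL
      push_cast at this
      linarith
    have hHe : (H : ℝ) ≤ Real.exp (κ * (lr + lL + lb)) := by
      rw [hH]
      push_cast
      rw [hbe, hre, hκ]
      calc (Real.exp lr * (k + k + 1) * Real.exp lb) ^ (2 * (n + 1))
          ≤ (Real.exp lr * Real.exp lL * Real.exp lb) ^ (2 * (n + 1)) := by
            gcongr
        _ = _ := by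
            rw [← Real.exp_add, ← Real.exp_add, ← Real.exp_nat_mul]
            push_cast
            ring_nf
    refine ⟨c, hc0, fun i => (hcc i).trans ?_, hcv.trans ?_⟩
    · calc (b : ℝ) ^ t * (2 * H * (b : ℝ) ^ (k + k)) * Q
          ≤ (Real.exp lb) ^ t * (Real.exp 1 * Real.exp (κ * (lr + lL + lb)) *
              (Real.exp lb) ^ (k + k)) * Real.exp lu := by
            rw [← hue, ← hbe]
            gcongr
        _ = Real.exp (t * lb + (1 + κ * (lr + lL + lb) + (k + k) * lb) + lu) := by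
            simp only [← Real.exp_nat_mul, ← Real.exp_add]
            push_cast
            ring_nf
        _ ≤ Real.exp (A * Λ) := by
            rw [Real.exp_le_exp, hAΛ]
            have e : t * lb + (1 + κ * (lr + lL + lb) + (k + k) * lb) + lu =
                (1 + κ * lr + lu) + κ * lb + κ * lL + 2 * kb + tb := by rw [hkb, htb]; ring
            rw [e]
            linarith
    · calc (b : ℝ) ^ t * ((b : ℝ) ^ (k + k) *
            ((1 / b) ^ L * (2 * (n + 1) * H * ((k + k + 1) * b + 1))))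
          ≤ (Real.exp lb) ^ t * ((Real.exp lb) ^ (k + k) *
            ((Real.exp (-lb)) ^ L * (Real.exp 1 * Real.exp lr *
              Real.exp (κ * (lr + lL + lb)) * (Real.exp lL * Real.exp lb * Real.exp 1)))) := by
            rw [Real.exp_neg, ← hre, ← hbe, one_div]
            have h3 : ((k : ℝ) + k + 1) * b + 1 ≤ Real.exp lL * b * Real.exp 1 := by
              have h5 : ((k : ℝ) + k + 1) * b + 1 ≤ ((k : ℝ) + k + 1) * b * 2 := by nlinarith
              refine h5.trans ?_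
              gcongr
            gcongr
        _ = Real.exp (t * lb + ((k + k) * lb + (L * (-lb) + (1 + lr +
              κ * (lr + lL + lb) + (lL + lb + 1))))) := by
            simp only [← Real.exp_nat_mul, ← Real.exp_add]
            push_cast
            ring_nf
        _ ≤ Real.exp (A * Λ - L * lb) := by
            rw [Real.exp_le_exp, hAΛ]
            have e : t * lb + ((k + k) * lb + (L * (-lb) + (1 + lr +
                κ * (lr + lL + lb) + (lL + lb + 1)))) =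
                (lr + 2 + κ * lr) + (κ + 1) * lb + (κ + 1) * lL +
                2 * kb + tb - L * lb := by rw [hkb, htb]; ring
            rw [e]
            linarith
  · push Not at hKL
    refine ⟨Fin.cons 1 0, ?_, fun i => ?_, ?_⟩
    · intro h0
      have h1 := congrFun h0 0
      simp at h1
    · have h1 : |(((Fin.cons 1 0 : Fin (n + 1) → ℤ) i : ℤ) : ℝ)| ≤ 1 := by
        refine Fin.cases ?_ (fun j => ?_) i <;> simp
      refine h1.trans (Real.one_le_exp ?_)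
      rw [hA]
      positivity
    · simp only [Fin.cons_zero, Fin.cons_succ, Int.cast_one, Pi.zero_apply, Int.cast_zero, zero_mul,
        Finset.sum_const_zero, add_zero, abs_one]
      refine Real.one_le_exp ?_
      have h1 : (L : ℝ) * lb ≤ 2 * kb := by
        rw [hkb]
        have h2 : (L : ℝ) ≤ 2 * k := by
          have : L ≤ 2 * k := by omega
          exact_mod_cast this
        nlinarith
      rw [hAΛ]
      have h3 : 0 ≤ c₀ * Λ + (κ + 1) * Λ + (κ + 1) * Λ + Λ := by positivity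
      linarith

end Pool.Agent.R473.ZJ
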