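import Pool.Agent.R473.ZJ.Changes
import Pool.Agent.R473.JC.Final
import Pool.Agent.Y926.TW.Dist

/-!
# The joint linear complexity of the digits of odd zeta values
-/

set_option autoImplicit false

namespace Pool.Agent.R473.ZJ

open Finset Polynomial Module Pool.Agent.R473.JC Pool.Agent.TH456.TM

/-- there are polynomials `g, h, f_1, …, f_D` over `ℚ` of degree `≤ k`, not all zero, such that
`g + h S + f_1 T_1 + ⋯ + f_D T_D` is divisible by `X^(L+1)`, where `S = ∑_(l ≤ L) s_l X^l` and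
`T_i = ∑_(l ≤ L) t_(i,l) X^l` -/
def LinRelation {D : ℕ} (s : ℕ → ℤ) (t : Fin D → ℕ → ℤ) (L k : ℕ) : Prop :=
  ∃ (g h : ℚ[X]) (f : Fin D → ℚ[X]), ¬ (g = 0 ∧ h = 0 ∧ f = 0) ∧ g.natDegree ≤ k ∧
    h.natDegree ≤ k ∧ (∀ i, (f i).natDegree ≤ k) ∧
    X ^ (L + 1) ∣ g + h * seqPoly s L + ∑ i, f i * seqPoly (t i) L

/-- the joint linear complexity of the first `L` digits of `x, v_1, …, v_D` in base `b` after at
most `e` changes of digits of each of these numbers -/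
noncomputable def complexity (b : ℕ) (x : ℝ) {D : ℕ} (v : Fin D → ℝ) (e L : ℕ) : ℕ :=
  sInf {k : ℕ | ∃ (s : ℕ → ℤ) (t : Fin D → ℕ → ℤ), Near b x e L s ∧
    (∀ i, Near b (v i) e L (t i)) ∧ LinRelation s t L k}

lemma lrel_of {D : ℕ} (s : ℕ → ℤ) (t : Fin D → ℕ → ℤ) (L k : ℕ)
    (h : LinRelation s t L k) : LRel (Fin.cons s t : Fin (D + 1) → ℕ → ℤ) L k := by
  obtain ⟨g, h, f, hne, hg, hh, hf, hX⟩ := h
  refine ⟨Fin.cons g (Fin.cons h f), ?_, ?_, ?_⟩
  · intro h0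
    apply hne
    have h1 := congrFun h0 0
    have h2 := congrFun h0 (Fin.succ 0)
    simp only [Fin.cons_zero, Fin.cons_succ, Pi.zero_apply] at h1 h2
    refine ⟨h1, h2, ?_⟩
    ext1 i
    have h3 := congrFun h0 i.succ.succ
    simpa using h3
  · intro j
    refine Fin.cases ?_ (fun j => ?_) j
    · simpa using hg
    · refine Fin.cases ?_ (fun j => ?_) j
      · simpa using hh
      · simpa using hf j
  · rw [Fin.sum_univ_succ]
    simp only [Fin.cons_zero, Fin.cons_succ]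
    rw [← add_assoc]
    exact hX

lemma near_self (b : ℕ) (hb : 2 ≤ b) (x : ℝ) (e L : ℕ) : Near b x e L (digit b x) := by
  refine ⟨fun l => ⟨?_, ?_⟩, ?_⟩
  · unfold digit
    exact Int.emod_nonneg _ (by exact_mod_cast (by omega : b ≠ 0))
  · unfold digit
    exact Int.emod_lt_of_pos _ (by exact_mod_cast (by omega : 0 < b))
  · simp

lemma complexity_mem (b : ℕ) (hb : 2 ≤ b) (x : ℝ) {D : ℕ} (v : Fin D → ℝ) (e L : ℕ) :
    ∃ (s : ℕ → ℤ) (t : Fin D → ℕ → ℤ), Near b x e L s ∧ (∀ i, Near b (v i) e L (t i)) ∧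
      LinRelation s t L (complexity b x v e L) := by
  refine Nat.sInf_mem (s := {k : ℕ | ∃ (s : ℕ → ℤ) (t : Fin D → ℕ → ℤ), Near b x e L s ∧
    (∀ i, Near b (v i) e L (t i)) ∧ LinRelation s t L k})
    ⟨L + 1, digit b x, fun i => digit b (v i), near_self b hb x e L,
      fun i => near_self b hb (v i) e L, X ^ (L + 1), 0, 0, ?_, ?_, ?_, ?_, ?_⟩
  · rintro ⟨h, -⟩
    exact pow_ne_zero _ X_ne_zero h
  · simp
  · simp
  · intro i
    simp
  · simp

/-- the numbers of changes -/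
lemma err_card (b : ℕ) {D : ℕ} (x : ℝ) (v : Fin D → ℝ) (e L : ℕ) (s : ℕ → ℤ)
    (t : Fin D → ℕ → ℤ) (hs : Near b x e L s) (ht : ∀ i, Near b (v i) e L (t i)) :
    (err b (Fin.cons x v : Fin (D + 1) → ℝ) (Fin.cons s t : Fin (D + 1) → ℕ → ℤ) L).card ≤
      (D + 1) * e := by
  classical
  have hfin : ∀ (y : ℝ) (u : ℕ → ℤ), {l : ℕ | 1 ≤ l ∧ l ≤ L ∧ u l ≠ digit b y l}.Finite := by
    intro y u
    refine (Set.finite_Icc 1 L).subset ?_
    rintro l ⟨h1, h2, _⟩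
    exact ⟨h1, h2⟩
  obtain ⟨F, hF⟩ : ∃ F : Fin (D + 1) → Set ℕ, F = fun i => {l : ℕ | 1 ≤ l ∧ l ≤ L ∧
    (Fin.cons s t : Fin (D + 1) → ℕ → ℤ) i l ≠ digit b ((Fin.cons x v : Fin (D + 1) → ℝ) i) l} :=
    ⟨_, rfl⟩
  have hFfin : ∀ i, (F i).Finite := fun i => by rw [hF]; exact hfin _ _
  have hFe : ∀ i, (F i).ncard ≤ e := by
    intro i
    rw [hF]
    refine Fin.cases ?_ (fun i => ?_) i
    · simpa using hs.2
    · simpa using (ht i).2
  have h1 : err b (Fin.cons x v : Fin (D + 1) → ℝ) (Fin.cons s t : Fin (D + 1) → ℕ → ℤ) L ⊆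
      Finset.univ.biUnion fun i => (hFfin i).toFinset := by
    intro l hl
    unfold err at hl
    simp only [Finset.mem_filter, Finset.mem_Icc] at hl
    obtain ⟨⟨h1, h2⟩, i, hi⟩ := hl
    simp only [Finset.mem_biUnion, Finset.mem_univ, true_and, Set.Finite.mem_toFinset]
    refine ⟨i, ?_⟩
    rw [hF]
    exact ⟨h1, h2, hi⟩
  refine (Finset.card_le_card h1).trans (Finset.card_biUnion_le.trans ?_)
  calc ∑ i, ((hFfin i).toFinset).card ≤ ∑ _i : Fin (D + 1), e := by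
        refine Finset.sum_le_sum fun i _ => ?_
        rw [← Set.ncard_eq_toFinset_card _ (hFfin i)]
        exact hFe i
    _ = (D + 1) * e := by
        rw [Finset.sum_const, Finset.card_univ, Fintype.card_fin, smul_eq_mul]

/-- **Families of numbers which are not simultaneously approximable.** -/
theorem families {ι : Type} (W : Finset ι) (z : ι → ℝ) {D : ℕ} (v : Fin D → ℝ) (K : ℕ)
    (hz : Far W z v K) (hv : LMeas v) :
    ∃ A : ℝ, 1 ≤ A ∧ ∀ (e : ℕ) (B L : ι → ℕ) (Λ : ℝ), (∀ j, 2 ≤ B j) →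
      (∀ j, Λ ≤ L j * Real.log (B j)) →
      K ≤ Set.ncard {j : ι | j ∈ W ∧
        Λ ≤ A ^ (e + 1) * ((complexity (B j) (z j) v e (L j) + 1) * Real.log (B j))} := by
  classical
  obtain ⟨A₀, hA₀, hmain⟩ := changes W z v K hz hv
  obtain ⟨w, hw⟩ : ∃ w : ℕ, w = W.card * (D + 1) := ⟨_, rfl⟩
  refine ⟨(A₀ + 1) ^ (w + 1), one_le_pow₀ (by linarith), ?_⟩
  intro e B L Λ hB hL
  by_contra hcon
  push Not at hcon
  obtain ⟨A, hA⟩ : ∃ A : ℝ, A = (A₀ + 1) ^ (w + 1) := ⟨_, rfl⟩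
  rw [← hA] at hcon
  have hA1 : 1 ≤ A := by rw [hA]; exact one_le_pow₀ (by linarith)
  obtain ⟨k, hk⟩ : ∃ k : ι → ℕ, k = fun j => complexity (B j) (z j) v e (L j) := ⟨_, rfl⟩
  have hkj : ∀ j, complexity (B j) (z j) v e (L j) = k j := fun j => by rw [hk]
  simp only [hkj] at hcon
  obtain ⟨J, hJ⟩ : ∃ J : Finset ι, J = W.filter fun j =>
      A ^ (e + 1) * (((k j : ℝ) + 1) * Real.log (B j)) < Λ := ⟨_, rfl⟩
  have hJW : J ⊆ W := by rw [hJ]; exact Finset.filter_subset _ _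
  have hWfin : (W : Set ι).Finite := W.finite_toSet
  have hgfin : {j : ι | j ∈ W ∧ Λ ≤ A ^ (e + 1) * (((k j : ℝ) + 1) * Real.log (B j))}.Finite :=
    hWfin.subset fun j hj => hj.1
  have hJK : (W : Set ι).ncard < (J : Set ι).ncard + K := by
    have h1 : (W : Set ι) ⊆ (J : Set ι) ∪
        {j : ι | j ∈ W ∧ Λ ≤ A ^ (e + 1) * (((k j : ℝ) + 1) * Real.log (B j))} := by
      intro j hj
      by_cases h : A ^ (e + 1) * (((k j : ℝ) + 1) * Real.log (B j)) < Λ
      · left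
        rw [hJ]
        exact Finset.mem_coe.2 (Finset.mem_filter.2 ⟨hj, h⟩)
      · right
        exact ⟨hj, not_lt.1 h⟩
    have h2 := Set.ncard_le_ncard h1 (J.finite_toSet.union hgfin)
    have h3 := Set.ncard_union_le (J : Set ι)
      {j : ι | j ∈ W ∧ Λ ≤ A ^ (e + 1) * (((k j : ℝ) + 1) * Real.log (B j))}
    omega
  have hlogB : ∀ j, 0 < Real.log (B j) := fun j => by
    have h0 : (2 : ℝ) ≤ B j := by exact_mod_cast hB j
    exact Real.log_pos (by linarith)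
  have hmem : ∀ j, ∃ (s : ℕ → ℤ) (t : Fin D → ℕ → ℤ), Near (B j) (z j) e (L j) s ∧
      (∀ i, Near (B j) (v i) e (L j) (t i)) ∧ LinRelation s t (L j) (k j) := fun j => by
    rw [← hkj j]
    exact complexity_mem (B j) (hB j) (z j) v e (L j)
  choose s t hs ht hrel using hmem
  have hA0 : (0 : ℝ) < A ^ (e + 1) := by positivity
  have hfin := hmain J hJW hJK B k L (w * e) (Λ / A ^ (e + 1)) Λ (fun j _ => hB j)
    (fun j hj => by
      rw [hJ] at hj
      have h1 := (Finset.mem_filter.1 hj).2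
      rw [le_div_iff₀ hA0, mul_comm]
      exact h1.le)
    (fun j _ => hL j) (fun j => Fin.cons (s j) (t j)) (fun j _ i l => by
      refine Fin.cases ?_ (fun i => ?_) i
      · simpa using (hs j).1 l
      · simpa using (ht j i).1 l)
    (by
      calc ∑ j ∈ J, (err (B j) (Fin.cons (z j) v : Fin (D + 1) → ℝ)
            (Fin.cons (s j) (t j) : Fin (D + 1) → ℕ → ℤ) (L j)).card
          ≤ ∑ _j ∈ J, (D + 1) * e :=
            Finset.sum_le_sum fun j _ => err_card (B j) (z j) v e (L j) (s j) (t j) (hs j) (ht j)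
        _ = J.card * ((D + 1) * e) := by rw [Finset.sum_const, smul_eq_mul]
        _ ≤ W.card * ((D + 1) * e) := Nat.mul_le_mul_right _ (Finset.card_le_card hJW)
        _ = w * e := by rw [hw]; ring)
    (fun j _ => lrel_of (s j) (t j) (L j) (k j) (hrel j))
  -- positivity of the scale
  have hJne : J.Nonempty := by
    rw [Finset.nonempty_iff_ne_empty]
    intro h0
    rw [h0] at hJK
    simp only [Finset.coe_empty, Set.ncard_empty, zero_add] at hJK
    obtain ⟨κ, q0, hfar⟩ := hz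
    have h1 := hfar q0 le_rfl
    have h2 : {j : ι | j ∈ W ∧ ∀ (r : ℤ) (p : Fin D → ℤ), (∀ i, |(p i : ℝ)| ≤ (q0 : ℝ) ^ 2) →
        1 / (q0 : ℝ) ^ κ ≤ |(q0 : ℝ) * z j - r - ∑ i, (p i : ℝ) * v i|} ⊆ (W : Set ι) :=
      fun j hj => hj.1
    have h3 := Set.ncard_le_ncard h2 W.finite_toSet
    omega
  obtain ⟨j0, hj0⟩ := hJne
  have hΛ : 0 < Λ := by
    rw [hJ] at hj0
    refine lt_of_le_of_lt ?_ (Finset.mem_filter.1 hj0).2
    have := hlogB j0
    positivity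
  rw [mul_div_assoc', le_div_iff₀ hA0] at hfin
  have h1 : A₀ ^ (w * e + 1) < A ^ (e + 1) := by
    rw [hA, ← pow_mul]
    calc A₀ ^ (w * e + 1) < (A₀ + 1) ^ (w * e + 1) :=
          pow_lt_pow_left₀ (by linarith) (by linarith) (by omega)
      _ ≤ (A₀ + 1) ^ ((w + 1) * (e + 1)) :=
          pow_le_pow_right₀ (by linarith) (by nlinarith)
  have h2 : A₀ ^ (w * e + 1) * Λ < A ^ (e + 1) * Λ := mul_lt_mul_of_pos_right h1 hΛ
  linarith

/-- powers of a number with a transcendence measure -/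
lemma lmeas_powers (x : ℝ) (hx : MeasT (x : ℂ)) (D : ℕ) :
    LMeas (fun i : Fin D => x ^ ((i : ℕ) + 1)) := by
  obtain ⟨κ, c, hκ, hc, h⟩ := hx D
  refine ⟨κ, c, hκ, hc, fun a ha H hH haH => ?_⟩
  obtain ⟨P, hP⟩ : ∃ P : ℤ[X], P = ∑ j : Fin (D + 1), C (a j) * X ^ (j : ℕ) := ⟨_, rfl⟩
  have hcoef : ∀ j : Fin (D + 1), P.coeff j = a j := by
    intro j
    rw [hP, finsetSum_coeff, Finset.sum_eq_single j]
    · rw [coeff_C_mul, coeff_X_pow, if_pos rfl, mul_one]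
    · intro j' _ hj'
      rw [coeff_C_mul, coeff_X_pow, if_neg, mul_zero]
      intro h
      exact hj' (Fin.ext h.symm)
    · intro h
      exact absurd (Finset.mem_univ _) h
  have hP0 : P ≠ 0 := by
    intro h0
    apply ha
    ext j
    have h1 := hcoef j
    rw [h0, coeff_zero] at h1
    exact h1.symm
  have hPd : P.natDegree ≤ D := by
    rw [hP]
    refine natDegree_sum_le_of_forall_le _ _ fun j _ => ?_
    refine (natDegree_C_mul_X_pow_le _ _).trans ?_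
    have := j.2
    omega
  have h1 := h P hP0 hPd H hH (fun j => by
    by_cases hj : j < D + 1
    · have h2 := hcoef ⟨j, hj⟩
      simp only at h2
      rw [h2]
      exact haH _
    · rw [coeff_eq_zero_of_natDegree_lt (by omega)]
      simp only [Int.cast_zero, abs_zero]
      linarith)
  refine h1.trans (le_of_eq ?_)
  congr 1
  have h2 : (aeval (x : ℂ) P : ℂ) = (((a 0 : ℝ) + ∑ i : Fin D, (a i.succ : ℝ) * x ^ ((i : ℕ) + 1) :
      ℝ) : ℂ) := by
    rw [hP, map_sum, Fin.sum_univ_succ]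
    push_cast
    congr 1
    · simp
    · refine Finset.sum_congr rfl fun i _ => ?_
      simp
  rw [h2, Complex.norm_real, Real.norm_eq_abs]

/-- no numbers at all -/
lemma lmeas_zero (v : Fin 0 → ℝ) : LMeas v := by
  refine ⟨0, 1, le_rfl, one_pos, fun a ha H _ _ => ?_⟩
  rw [Real.rpow_zero, one_mul, Finset.univ_eq_empty, Finset.sum_empty, add_zero]
  have h0 : a 0 ≠ 0 := by
    intro h0
    apply ha
    ext i
    have hi : i = 0 := Fin.ext (by have := i.2; simp only [Fin.val_zero]; omega)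
    rw [hi]
    exact h0
  exact_mod_cast Int.one_le_abs h0

/-- **Odd zeta values.** -/
theorem windows (b₀ K s D : ℕ) (hK : 1 ≤ K)
    (hs : (2 : ℝ) ^ (132 * (D + 1)) * ((b₀ : ℝ) + 1) ^ 2 * (K : ℝ) ^ 3 * Real.log (K + 1) ≤
      (s : ℝ) ^ 2) (v : Fin D → ℝ) (hv : LMeas v) :
    ∃ A : ℝ, 1 ≤ A ∧ ∀ (e : ℕ) (B L : ℕ → ℕ) (Λ : ℝ), (∀ j, 2 ≤ B j) →
      (∀ j, Λ ≤ L j * Real.log (B j)) →
      K ≤ Set.ncard {j : ℕ | b₀ < j ∧ j ≤ s ∧ Odd j ∧ Λ ≤ A ^ (e + 1) *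
        ((complexity (B j) (∑' n : ℕ, 1 / ((n : ℝ) + 1) ^ j) v e (L j) + 1) *
          Real.log (B j))} := by
  classical
  obtain ⟨W, hW⟩ : ∃ W : Finset ℕ, W = (Finset.Ioc b₀ s).filter Odd := ⟨_, rfl⟩
  have hWm : ∀ j, j ∈ W ↔ b₀ < j ∧ j ≤ s ∧ Odd j := fun j => by
    rw [hW]
    simp only [Finset.mem_filter, Finset.mem_Ioc]
    tauto
  have hfar : Far W (fun j => ∑' n : ℕ, 1 / ((n : ℝ) + 1) ^ j) v K := by
    obtain ⟨q0, hq0⟩ := Pool.Agent.Y926.TW.window_dist (b := b₀) hK hs v 2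
    refine ⟨D * (D + 2) * 2 + 2 * D + 2, q0, fun q hq => ?_⟩
    have h1 := hq0 q hq
    convert h1 using 4
    rename_i j
    rw [hWm]
    tauto
  obtain ⟨A, hA, h⟩ := families W (fun j => ∑' n : ℕ, 1 / ((n : ℝ) + 1) ^ j) v K hfar hv
  refine ⟨A, hA, fun e B L Λ hB hL => ?_⟩
  have h1 := h e B L Λ hB hL
  convert h1 using 4
  rename_i j
  rw [hWm]
  tauto

end Pool.Agent.R473.ZJ
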