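import Pool.Agent.R473.JC.Form

/-!
# The integer linear form given by a linear relation for the digits of several numbers
-/

set_option autoImplicit false

namespace Pool.Agent.R473.ZJ

open Finset Polynomial Module Pool.Agent.W472.AC Pool.Agent.R473.EC Pool.Agent.TH629.ExpDig
  Pool.Agent.R473.JC

/-- a relation with coefficients of degree `≤ k` between `1` and the polynomials of the terms
`1, …, L` of the sequences `s i` -/
def LRel {n : ℕ} (s : Fin n → ℕ → ℤ) (L k : ℕ) : Prop :=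
  ∃ h : Fin (n + 1) → ℚ[X], h ≠ 0 ∧ (∀ j, (h j).natDegree ≤ k) ∧
    X ^ (L + 1) ∣ h 0 + ∑ i : Fin n, h i.succ * sQ (s i) L

lemma LRel.trunc {n : ℕ} {s : Fin n → ℕ → ℤ} {L k : ℕ} (h : LRel s L k) (L' : ℕ) (hL : L' ≤ L) :
    LRel s L' k := by
  obtain ⟨h, h0, hd, hX⟩ := h
  refine ⟨h, h0, hd, ?_⟩
  have h1 : h 0 + ∑ i : Fin n, h i.succ * sQ (s i) L' =
      (h 0 + ∑ i : Fin n, h i.succ * sQ (s i) L) -
        ∑ i : Fin n, h i.succ * (sQ (s i) L - sQ (s i) L') := by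
    simp only [mul_sub, Finset.sum_sub_distrib]
    ring
  rw [h1]
  refine dvd_sub (dvd_trans (pow_dvd_pow _ (by omega)) hX) (Finset.dvd_sum fun i _ => ?_)
  exact Dvd.dvd.mul_left (trunc_dvd (s i) L L' hL) _

lemma sZ_coeff_le (s : ℕ → ℤ) (b : ℕ) (hs : ∀ l, 0 ≤ s l ∧ s l < b) (L i : ℕ) :
    |(sZ s L).coeff i| ≤ b := by
  rw [abs_of_nonneg (sZ_coeff_nonneg s (fun l => (hs l).1) L i)]
  unfold sZ
  rw [finsetSum_coeff]
  simp only [coeff_C_mul, coeff_X_pow, mul_ite, mul_one, mul_zero]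
  rw [Finset.sum_ite_eq (Icc 1 L) i]
  split_ifs
  · exact (hs i).2.le
  · exact Int.natCast_nonneg _

theorem form_raw {n : ℕ} (x : Fin n → ℝ) (b : ℕ) (hb : 2 ≤ b) (L k t : ℕ) (htL : t ≤ L)
    (s : Fin n → ℕ → ℤ) (hs : ∀ i l, 0 ≤ s i l ∧ s i l < b)
    (hst : ∀ i l, t < l → l ≤ L → s i l = digit b (x i) l) (hrel : LRel s L k) (H : ℕ)
    (hH : H = ((n + 1) * (k + k + 1) * b) ^ (2 * (n + 1))) :
    ∃ c : Fin (n + 1) → ℤ, c ≠ 0 ∧
      (∀ j, |(c j : ℝ)| ≤ (b : ℝ) ^ t * (2 * H * (b : ℝ) ^ (k + k)) * (1 + n * (∑ i, |x i| + 2))) ∧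
      |(c 0 : ℝ) + ∑ i : Fin n, (c i.succ : ℝ) * x i| ≤ (b : ℝ) ^ t * ((b : ℝ) ^ (k + k) *
        ((1 / b) ^ L * (2 * (n + 1) * H * ((k + k + 1) * b + 1)))) := by
  obtain ⟨h, hh0, hhk, hX⟩ := hrel
  have hb1 : 1 ≤ b := by omega
  have hbR : (1 : ℝ) ≤ b := by exact_mod_cast hb1
  have hz : (0 : ℝ) ≤ (1 / (b : ℝ)) ^ L := by positivity
  have hq' : ∀ i, ∃ q : ℤ, ev (1 / b) (sZ (s i) L) - ev (1 / b) (DZ b (x i) L) =
      q / (b : ℝ) ^ t := fun i => by
    rw [← sZ_digit]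
    exact ev_diff (s i) (digit b (x i)) b hb1 t L htL (hst i)
  choose q hq using hq'
  have hdig : ∀ i l, 0 ≤ digit b (x i) l ∧ digit b (x i) l < b := fun i l =>
    ⟨digit_nonneg _ _ hb1 _, by
      unfold digit
      exact Int.emod_lt_of_pos _ (by exact_mod_cast hb1)⟩
  have hev1 : ∀ i, 0 ≤ ev (1 / (b : ℝ)) (sZ (s i) L) ∧
      ev (1 / (b : ℝ)) (sZ (s i) L) ≤ 1 - (1 / b) ^ L := fun i =>
    ev_sZ_bounds (s i) b hb1 (fun l => (hs i l).1) (fun l => (hs i l).2) L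
  have hev2 : ∀ i, 0 ≤ ev (1 / (b : ℝ)) (DZ b (x i) L) ∧
      ev (1 / (b : ℝ)) (DZ b (x i) L) ≤ 1 - (1 / b) ^ L := fun i => by
    rw [← sZ_digit]
    exact ev_sZ_bounds _ b hb1 (fun l => (hdig i l).1) (fun l => (hdig i l).2) L
  have hbt : (0 : ℝ) < (b : ℝ) ^ t := by positivity
  have hbt1 : (1 : ℝ) ≤ (b : ℝ) ^ t := one_le_pow₀ hbR
  have hqb : ∀ i, |((q i : ℤ) : ℝ)| ≤ (b : ℝ) ^ t := by
    intro i
    have h1 : |(q i : ℝ) / (b : ℝ) ^ t| ≤ 1 := by
      rw [← hq i, abs_le]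
      constructor <;> linarith [(hev1 i).1, (hev1 i).2, (hev2 i).1, (hev2 i).2]
    rwa [abs_div, abs_of_pos hbt, div_le_one hbt] at h1
  obtain ⟨G, hG⟩ : ∃ G : Fin (n + 1) → ℤ[X], G = Fin.cons 1 (fun i => sZ (s i) L) := ⟨_, rfl⟩
  obtain ⟨y, hy⟩ : ∃ y : Fin (n + 1) → ℝ, y = Fin.cons 1 (fun i => Int.fract (x i) +
    (q i : ℝ) / (b : ℝ) ^ t) := ⟨_, rfl⟩
  have hG0 : G 0 = 1 := by rw [hG]; rfl
  have hGs : ∀ i : Fin n, G i.succ = sZ (s i) L := fun i => by rw [hG]; rfl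
  have hy0 : y 0 = 1 := by rw [hy]; rfl
  have hys : ∀ i : Fin n, y i.succ = Int.fract (x i) + (q i : ℝ) / (b : ℝ) ^ t := fun i => by
    rw [hy]; rfl
  obtain ⟨a, ha0, haM, haS⟩ := exists_form n k k L b (2 * (n + 1)) b hb hb1 y 1 G
    (fun j i => by
      refine Fin.cases ?_ (fun j => ?_) j
      · rw [hG0, coeff_one]
        split_ifs
        · simp only [abs_one]; exact_mod_cast hb1
        · simp
      · rw [hGs]
        exact sZ_coeff_le (s j) b (hs j) L i)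
    (fun j => by
      refine Fin.cases ?_ (fun j => ?_) j
      · rw [hG0, hy0]
        have : ev (1 / (b : ℝ)) 1 = 1 := by unfold ev; simp
        rw [this, sub_self, abs_zero]
        positivity
      · rw [hGs, hys]
        have h1 : Int.fract (x j) + (q j : ℝ) / (b : ℝ) ^ t - ev (1 / (b : ℝ)) (sZ (s j) L) =
            Int.fract (x j) - ev (1 / (b : ℝ)) (DZ b (x j) L) := by
          rw [← hq j]; ring
        rw [h1]
        have hcl := ev_DZ_close (x j) b hb1 L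
        rw [abs_of_nonneg hcl.1, one_mul]
        exact hcl.2)
    h hh0 hhk (by
      have e : ∑ j, h j * (G j).map (Int.castRingHom ℚ) =
          h 0 + ∑ i : Fin n, h i.succ * sQ (s i) L := by
        rw [Fin.sum_univ_succ, hG0, Polynomial.map_one, mul_one]
        refine congrArg _ (Finset.sum_congr rfl fun i _ => ?_)
        rw [hGs, sQ_eq]
      rw [e]; exact hX)
    (by nlinarith) H hH
  obtain ⟨M, hM⟩ : ∃ M : ℝ, M = 2 * H * (b : ℝ) ^ (k + k) := ⟨_, rfl⟩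
  rw [← hM] at haM ⊢
  have hM0 : 0 ≤ M := (abs_nonneg _).trans (haM 0)
  have hSX : 0 ≤ ∑ i, |x i| := Finset.sum_nonneg fun i _ => abs_nonneg _
  have hn0 : (0 : ℝ) ≤ n := Nat.cast_nonneg n
  obtain ⟨c, hc⟩ : ∃ c : Fin (n + 1) → ℤ, c = Fin.cons ((b : ℤ) ^ t * a 0 +
    ∑ i : Fin n, a i.succ * (q i - (b : ℤ) ^ t * ⌊x i⌋)) (fun i => (b : ℤ) ^ t * a i.succ) :=
    ⟨_, rfl⟩
  have hc0 : c 0 = (b : ℤ) ^ t * a 0 + ∑ i : Fin n, a i.succ * (q i - (b : ℤ) ^ t * ⌊x i⌋) := by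
    rw [hc]; rfl
  have hcs : ∀ i : Fin n, c i.succ = (b : ℤ) ^ t * a i.succ := fun i => by rw [hc]; rfl
  have hbtZ : ((b : ℤ) ^ t) ≠ 0 := by positivity
  refine ⟨c, ?_, ?_, ?_⟩
  · intro h0
    apply ha0
    have h1 : ∀ i : Fin n, a i.succ = 0 := fun i => by
      have h2 := congrFun h0 i.succ
      rw [hcs] at h2
      exact (mul_eq_zero.1 h2).resolve_left hbtZ
    ext j
    refine Fin.cases ?_ (fun j => ?_) j
    · have h2 := congrFun h0 0
      rw [hc0] at h2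
      simp only [h1, zero_mul, Finset.sum_const_zero, add_zero, Pi.zero_apply] at h2
      exact (mul_eq_zero.1 h2).resolve_left hbtZ
    · exact h1 j
  · intro j
    refine Fin.cases ?_ (fun j => ?_) j
    · rw [hc0]
      push_cast
      have h1 : |(b : ℝ) ^ t * (a 0 : ℝ)| ≤ (b : ℝ) ^ t * M := by
        rw [abs_mul, abs_of_pos hbt]
        exact mul_le_mul_of_nonneg_left (haM 0) hbt.le
      have h2 : ∀ i : Fin n, |(a i.succ : ℝ) * ((q i : ℝ) - (b : ℝ) ^ t * ⌊x i⌋)| ≤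
          M * ((b : ℝ) ^ t * (∑ i, |x i| + 2)) := by
        intro i
        rw [abs_mul]
        refine mul_le_mul (haM _) ?_ (abs_nonneg _) hM0
        have h4 : |((⌊x i⌋ : ℤ) : ℝ)| ≤ |x i| + 1 := by
          have h5 := Int.floor_le (x i)
          have h6 := Int.lt_floor_add_one (x i)
          rw [abs_le]
          constructor
          · have := neg_abs_le (x i)
            linarith
          · have := le_abs_self (x i)
            linarith
        have h5 : |x i| ≤ ∑ i, |x i| :=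
          Finset.single_le_sum (f := fun i => |x i|) (fun i _ => abs_nonneg _) (Finset.mem_univ i)
        calc |(q i : ℝ) - (b : ℝ) ^ t * ⌊x i⌋| ≤ |(q i : ℝ)| + |(b : ℝ) ^ t * ⌊x i⌋| := abs_sub _ _
          _ ≤ (b : ℝ) ^ t + (b : ℝ) ^ t * (|x i| + 1) := by
              rw [abs_mul, abs_of_pos hbt]
              exact add_le_add (hqb i) (mul_le_mul_of_nonneg_left h4 hbt.le)
          _ = (b : ℝ) ^ t * (|x i| + 2) := by ring
          _ ≤ (b : ℝ) ^ t * (∑ i, |x i| + 2) :=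
              mul_le_mul_of_nonneg_left (by linarith) hbt.le
      have h3 : |∑ i : Fin n, (a i.succ : ℝ) * ((q i : ℝ) - (b : ℝ) ^ t * ⌊x i⌋)| ≤
          n * (M * ((b : ℝ) ^ t * (∑ i, |x i| + 2))) := by
        refine (Finset.abs_sum_le_sum_abs _ _).trans ?_
        refine (Finset.sum_le_sum fun i _ => h2 i).trans (le_of_eq ?_)
        rw [Finset.sum_const, Finset.card_univ, Fintype.card_fin, nsmul_eq_mul]
      calc |(b : ℝ) ^ t * (a 0 : ℝ) + ∑ i : Fin n, (a i.succ : ℝ) *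
            ((q i : ℝ) - (b : ℝ) ^ t * ⌊x i⌋)|
          ≤ (b : ℝ) ^ t * M + n * (M * ((b : ℝ) ^ t * (∑ i, |x i| + 2))) :=
            (abs_add_le _ _).trans (add_le_add h1 h3)
        _ = _ := by ring
    · rw [hcs]
      push_cast
      rw [abs_mul, abs_of_pos hbt]
      calc (b : ℝ) ^ t * |(a j.succ : ℝ)| ≤ (b : ℝ) ^ t * M :=
            mul_le_mul_of_nonneg_left (haM _) hbt.le
        _ = (b : ℝ) ^ t * M * 1 := by ring
        _ ≤ _ := by
            refine mul_le_mul_of_nonneg_left ?_ (by positivity)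
            have : 0 ≤ (n : ℝ) * (∑ i, |x i| + 2) := by positivity
            linarith
  · have e : (c 0 : ℝ) + ∑ i : Fin n, (c i.succ : ℝ) * x i = (b : ℝ) ^ t * ∑ j, (a j : ℝ) * y j := by
      rw [Fin.sum_univ_succ, hy0, hc0]
      simp only [hcs, hys]
      push_cast
      rw [mul_add, mul_one, add_assoc, ← Finset.sum_add_distrib, Finset.mul_sum]
      refine congrArg _ (Finset.sum_congr rfl fun i _ => ?_)
      unfold Int.fract
      field_simp
      ring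
    rw [e, abs_mul, abs_of_pos hbt]
    exact mul_le_mul_of_nonneg_left haS hbt.le

end Pool.Agent.R473.ZJ
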